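import Pool.Agent.Helper39.HR.Final
import Pool.Agent.Helper84.HR.Round

set_option autoImplicit false

namespace Pool.Agent.Results.MP_8b22ef_co.HereditaryRatio

/-- There are `ε > 0` and `C` such that every finite graph of maximum degree at most `d` (`d ≥ 1`)
in which every vertex set `S` contains an independent set of size at least `|S| / 3` has a proper
colouring with at most `C d^(1-ε)` colours. -/
theorem result : ∃ ε C : ℝ, 0 < ε ∧ 0 < C ∧
    ∀ (V : Type) [Fintype V] (G : SimpleGraph V) [DecidableRel G.Adj] (d : ℕ), 1 ≤ d →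
      (∀ v, G.degree v ≤ d) →
      (∀ S : Finset V, ∃ I ⊆ S, G.IsIndepSet (I : Set V) ∧ S.card ≤ 3 * I.card) →
      ∃ k : ℕ, (k : ℝ) ≤ C * (d : ℝ) ^ (1 - ε) ∧ G.Colorable k := by
  classical
  obtain ⟨ε, hε, d0, hmain⟩ := Pool.Agent.Helper39.HR.main
  refine ⟨min ε 1, (d0 : ℝ) + 2, lt_min hε one_pos, by positivity, ?_⟩
  intro V _ G _ d hd hdeg hind
  have hd1 : (1 : ℝ) ≤ (d : ℝ) := by exact_mod_cast hd
  have hexp : (0 : ℝ) ≤ 1 - min ε 1 := by
    have := min_le_right ε 1
    linarith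
  have hpow : (1 : ℝ) ≤ (d : ℝ) ^ (1 - min ε 1) := Real.one_le_rpow hd1 hexp
  have hΔ : G.maxDegree ≤ d := G.maxDegree_le_of_forall_degree_le d hdeg
  by_cases hbig : d0 ≤ G.maxDegree ∧ 1 ≤ G.maxDegree
  · have hcol := hmain V G hbig.1 (fun S => by
      obtain ⟨I, hI, h1, h2⟩ := hind S
      exact ⟨I, hI, h1, h2⟩)
    refine ⟨_, ?_, hcol⟩
    have hΔ1 : (1 : ℝ) ≤ (G.maxDegree : ℝ) := by exact_mod_cast hbig.2
    have h0 : (0 : ℝ) ≤ (G.maxDegree : ℝ) ^ (1 - ε) := by positivity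
    have h1 : (G.maxDegree : ℝ) ^ (1 - ε) ≤ (G.maxDegree : ℝ) ^ (1 - min ε 1) := by
      refine Real.rpow_le_rpow_of_exponent_le hΔ1 ?_
      have := min_le_left ε 1
      linarith
    have h2 : (G.maxDegree : ℝ) ^ (1 - min ε 1) ≤ (d : ℝ) ^ (1 - min ε 1) :=
      Real.rpow_le_rpow (by linarith) (by exact_mod_cast hΔ) hexp
    have h3 : (1 : ℝ) * (d : ℝ) ^ (1 - min ε 1) ≤ ((d0 : ℝ) + 2) * (d : ℝ) ^ (1 - min ε 1) := by
      refine mul_le_mul_of_nonneg_right ?_ (by linarith)
      have : (0 : ℝ) ≤ (d0 : ℝ) := Nat.cast_nonneg d0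
      linarith
    have h4 := Nat.floor_le h0
    linarith
  · have hsmall : G.maxDegree ≤ d0 := by
      by_contra hcon
      push Not at hcon
      exact hbig ⟨hcon.le, by omega⟩
    obtain ⟨c, hc⟩ := Pool.Agent.Helper84.HR.greedy (K := 1) (M := d0) G (fun _ => 0)
      (fun _ _ => 0) (by
        intro x
        refine (Finset.card_le_card (t := G.neighborFinset x) ?_).trans ?_
        · intro y hy
          rw [SimpleGraph.mem_neighborFinset]
          simp only [Finset.mem_filter, Finset.mem_univ, true_and] at hy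
          exact hy.1
        · rw [SimpleGraph.card_neighborFinset_eq_degree]
          exact (G.degree_le_maxDegree x).trans hsmall) Finset.univ
    refine ⟨d0 + 1, ?_, ?_⟩
    · push_cast
      have : (0 : ℝ) ≤ (d0 : ℝ) := Nat.cast_nonneg d0
      nlinarith
    · exact ⟨SimpleGraph.Coloring.mk c (fun {x y} h =>
        hc x (Finset.mem_univ x) y (Finset.mem_univ y) h rfl)⟩

end Pool.Agent.Results.MP_8b22ef_co.HereditaryRatio
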